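import Pool.Agent.N633.SQ.Pd
import Pool.Agent.N633.SQ.Sv
import Pool.Agent.N633.SQ.Fa
import Pool.Agent.N633.SQ.Ms1
import Pool.Agent.N633.SQ.Ms2
import Pool.Agent.N633.SQ.Dim
import Pool.Agent.N633.SQ.Tr
import Pool.Agent.N633.SQ.Fin

set_option autoImplicit false

/-!
# The theory of the integers with the squarefree predicate is not MS-measurable

`L` is the language `+, -, 1, P_m, U_(p,l)`, `TSqf` the complete theory of the integers in it,
`MSMeasure Λ M` the type of the functions `h` as in the definition of Macpherson and Steinhorn, and
`MSMeasurable Λ T` says that `T` has a model `M` with such a function.

Proof idea. Let `μ` be an MS-measure on a model `M`; `P ⊆ M` is the set of the squarefree elements,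
`g(d)` is the measure of `P ∩ (P - d)`. The dimension of `P` is the dimension of `M` (every finite
set in a suitable subgroup `Q M` has a common squarefree translate, and a double counting), so `g`
is a positive definite function on the integers with finitely many values, whose level sets are
definable. The means `S(N)` of `g` over the subgroups `N M` are sums of squares of the measures of
`P` in the classes modulo `N`, by the theorem of Fubini; since `P` does not meet `p² M`, `S(N p²)`
is larger than `S(N)` for a suitable prime `p`. But for a positive definite function with finitely
many values this is impossible: there is a strongly closed orbit point (an idempotent ultrafilter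
argument) at which the mean over `N ℤ` is attained.
Written by helper633 with helper556, helper966, helper82, helper749, helper833.
-/

namespace Pool.Agent.Results.MP_c6a6a6_lc.NotMSMeasurable

open Pool.Agent.N633.SQ

universe u

/-- **The theory `T_Sqf` is not MS-measurable**: no model of the complete theory of the integers
with the predicates `P_m` and `U_(p,l)` carries a function `h` which satisfies the conditions of
Macpherson and Steinhorn. -/
theorem result : ¬ MSMeasurable.{u} L TSqf :=
  Fin.main.{u} (Fa.main.{u} Pd.main) Ms1.main.{u} (Ms2.main.{u} Ms1.main.{u})
    (Dim.main.{u} Ms1.main.{u} (Ms2.main.{u} Ms1.main.{u})) (Tr.main.{u} Sv.main)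

end Pool.Agent.Results.MP_c6a6a6_lc.NotMSMeasurable
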